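import Pool.Agent.helper78.HR.Defs

set_option autoImplicit false

namespace Pool.Agent.helper78.HR

open Finset

theorem FW_sub {ι : Type*} [Fintype ι] (x y : ι → ℤ) {l r b t l' r' b' t' : ℤ}
    (h1 : l' ≤ l) (h2 : r ≤ r') (h3 : b' ≤ b) (h4 : t ≤ t') :
    Pts x y l r b t ⊆ Pts x y l' r' b' t' := by
  intro s hs
  rw [mem_Pts] at hs ⊢
  omega

theorem FW_splitx {ι : Type*} [Fintype ι] (x y : ι → ℤ) {l r b t m : ℤ}
    (h1 : l ≤ m + 1) (h2 : m ≤ r) :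
    (Pts x y l r b t).card = (Pts x y l m b t).card + (Pts x y (m + 1) r b t).card := by
  classical
  have hd : Disjoint (Pts x y l m b t) (Pts x y (m + 1) r b t) := by
    rw [Finset.disjoint_left]
    intro s hs hs'
    rw [mem_Pts] at hs hs'
    omega
  rw [← Finset.card_union_of_disjoint hd]
  congr 1
  ext s
  rw [Finset.mem_union, mem_Pts, mem_Pts, mem_Pts]
  omega

theorem FW_splity {ι : Type*} [Fintype ι] (x y : ι → ℤ) {l r b t m : ℤ}
    (h1 : b ≤ m + 1) (h2 : m ≤ t) :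
    (Pts x y l r b t).card = (Pts x y l r b m).card + (Pts x y l r (m + 1) t).card := by
  classical
  have hd : Disjoint (Pts x y l r b m) (Pts x y l r (m + 1) t) := by
    rw [Finset.disjoint_left]
    intro s hs hs'
    rw [mem_Pts] at hs hs'
    omega
  rw [← Finset.card_union_of_disjoint hd]
  congr 1
  ext s
  rw [Finset.mem_union, mem_Pts, mem_Pts, mem_Pts]
  omega

/-- if a smaller box has the same number of points, the sets of points are the same. -/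
theorem FW_mem {ι : Type*} {S T : Finset ι} (h : S ⊆ T) (hc : S.card = T.card) {s : ι}
    (hs : s ∈ T) : s ∈ S := by
  rw [Finset.eq_of_subset_of_card_le h hc.ge]
  exact hs

/-- number of points in the four quadrants of `z`. -/
theorem FW_four {ι : Type*} [Fintype ι] (x y : ι → ℤ) {l r b t m n : ℤ}
    (h1 : l ≤ m) (h2 : m ≤ r) (h3 : b ≤ n) (h4 : n ≤ t) :
    (Pts x y l r b t).card = (Pts x y l m b n).card + (Pts x y (m + 1) r b n).card +
      (Pts x y l m (n + 1) t).card + (Pts x y (m + 1) r (n + 1) t).card := by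
  rw [FW_splitx x y (m := m) (by omega) h2, FW_splity x y (l := l) (r := m) (m := n) (by omega) h4,
    FW_splity x y (l := m + 1) (r := r) (m := n) (by omega) h4]
  omega

theorem FW_nested {ι : Type*} [Fintype ι] (x y : ι → ℤ) (hx : Function.Injective x)
    (hy : Function.Injective y) (f g : Fm ι) (hf : Fr x y f) (hg : Fr x y g)
    (hc : (cont x y f).card = (cont x y g).card)
    (h1 : x g.1 ≤ x f.1) (h2 : x f.2.1 ≤ x g.2.1) (h3 : y g.2.2.1 ≤ y f.2.2.1)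
    (h4 : y f.2.2.2 ≤ y g.2.2.2) : f = g := by
  have hsub : cont x y f ⊆ cont x y g := FW_sub x y h1 h2 h3 h4
  have key : ∀ s, s ∈ cont x y g → s ∈ cont x y f := fun s hs => FW_mem hsub hc hs
  obtain ⟨a1, a2, a3, a4⟩ := hg
  unfold In at a1 a2 a3 a4
  simp only at a1 a2 a3 a4
  have k1 := key g.1 ((mem_cont x y).2 ⟨a1.1, a1.2.1, a1.2.2.1, a1.2.2.2⟩)
  have k2 := key g.2.1 ((mem_cont x y).2 ⟨a2.1, a2.2.1, a2.2.2.1, a2.2.2.2⟩)
  have k3 := key g.2.2.1 ((mem_cont x y).2 ⟨a3.1, a3.2.1, a3.2.2.1, a3.2.2.2⟩)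
  have k4 := key g.2.2.2 ((mem_cont x y).2 ⟨a4.1, a4.2.1, a4.2.2.1, a4.2.2.2⟩)
  rw [mem_cont] at k1 k2 k3 k4
  have e1 : f.1 = g.1 := hx (by omega)
  have e2 : f.2.1 = g.2.1 := hx (by omega)
  have e3 : f.2.2.1 = g.2.2.1 := hy (by omega)
  have e4 : f.2.2.2 = g.2.2.2 := hy (by omega)
  exact Prod.ext e1 (Prod.ext e2 (Prod.ext e3 e4))

/-- the four numbers. -/
def FWq {ι : Type*} [Fintype ι] (x y : ι → ℤ) (z : ℤ × ℤ) (f : Fm ι) : ℕ × ℕ × ℕ :=
  ((Pts x y (x f.1) z.1 (y f.2.2.1) z.2).card, (Pts x y (z.1 + 1) (x f.2.1) (y f.2.2.1) z.2).card,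
    (Pts x y (x f.1) z.1 (z.2 + 1) (y f.2.2.2)).card)

/-- data of a pair of boxes with the same numbers. -/
structure FWP {ι : Type*} [Fintype ι] (x y : ι → ℤ) (K : ℕ) (z : ℤ × ℤ) (f g : Fm ι) : Prop where
  ff : Fr x y f
  fg : Fr x y g
  kf : (cont x y f).card = K
  kg : (cont x y g).card = K
  zf : In x y f z
  zg : In x y g z
  sw : (Pts x y (x f.1) z.1 (y f.2.2.1) z.2).card = (Pts x y (x g.1) z.1 (y g.2.2.1) z.2).card
  se : (Pts x y (z.1 + 1) (x f.2.1) (y f.2.2.1) z.2).card = (Pts x y (z.1 + 1) (x g.2.1) (y g.2.2.1) z.2).card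
  nw : (Pts x y (x f.1) z.1 (z.2 + 1) (y f.2.2.2)).card = (Pts x y (x g.1) z.1 (z.2 + 1) (y g.2.2.2)).card
  ne : (Pts x y (z.1 + 1) (x f.2.1) (z.2 + 1) (y f.2.2.2)).card = (Pts x y (z.1 + 1) (x g.2.1) (z.2 + 1) (y g.2.2.2)).card

variable {ι : Type*} [Fintype ι] {x y : ι → ℤ} {K : ℕ} {z : ℤ × ℤ} {f g : Fm ι}

theorem FWP.symm (h : FWP x y K z f g) : FWP x y K z g f :=
  ⟨h.fg, h.ff, h.kg, h.kf, h.zg, h.zf, h.sw.symm, h.se.symm, h.nw.symm, h.ne.symm⟩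

theorem FWP.low (h : FWP x y K z f g) (h1 : x g.1 ≤ x f.1) (h2 : x f.2.1 ≤ x g.2.1)
    (h3 : y g.2.2.1 < y f.2.2.1) : False := by
  obtain ⟨a1, a2, a3, a4⟩ := h.zf
  obtain ⟨c1, c2, c3, c4⟩ := h.zg
  have hsub : Pts x y (x f.1) (x f.2.1) (y f.2.2.1) z.2 ⊆ Pts x y (x g.1) (x g.2.1) (y g.2.2.1) z.2 :=
    FW_sub x y h1 h2 h3.le le_rfl
  have hc : (Pts x y (x f.1) (x f.2.1) (y f.2.2.1) z.2).card =
      (Pts x y (x g.1) (x g.2.1) (y g.2.2.1) z.2).card := by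
    rw [FW_splitx x y (l := x f.1) (r := x f.2.1) (m := z.1) (by omega) a2,
      FW_splitx x y (l := x g.1) (r := x g.2.1) (m := z.1) (by omega) c2, h.sw, h.se]
  obtain ⟨-, -, d, -⟩ := h.fg
  unfold In at d
  simp only at d
  have := FW_mem hsub hc (s := g.2.2.1) ((mem_Pts x y).2 ⟨d.1, d.2.1, le_rfl, c3⟩)
  rw [mem_Pts] at this
  omega

theorem FWP.upp (h : FWP x y K z f g) (h1 : x g.1 ≤ x f.1) (h2 : x f.2.1 ≤ x g.2.1)
    (h3 : y f.2.2.2 < y g.2.2.2) : False := by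
  obtain ⟨a1, a2, a3, a4⟩ := h.zf
  obtain ⟨c1, c2, c3, c4⟩ := h.zg
  have hsub : Pts x y (x f.1) (x f.2.1) (z.2 + 1) (y f.2.2.2) ⊆ Pts x y (x g.1) (x g.2.1) (z.2 + 1) (y g.2.2.2) :=
    FW_sub x y h1 h2 le_rfl h3.le
  have hc : (Pts x y (x f.1) (x f.2.1) (z.2 + 1) (y f.2.2.2)).card =
      (Pts x y (x g.1) (x g.2.1) (z.2 + 1) (y g.2.2.2)).card := by
    rw [FW_splitx x y (l := x f.1) (r := x f.2.1) (m := z.1) (by omega) a2,
      FW_splitx x y (l := x g.1) (r := x g.2.1) (m := z.1) (by omega) c2, h.nw, h.ne]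
  obtain ⟨-, -, -, d⟩ := h.fg
  unfold In at d
  simp only at d
  have := FW_mem hsub hc (s := g.2.2.2) ((mem_Pts x y).2 ⟨d.1, d.2.1, by omega, le_rfl⟩)
  rw [mem_Pts] at this
  omega

theorem FWP.lef (h : FWP x y K z f g) (h1 : y g.2.2.1 ≤ y f.2.2.1) (h2 : y f.2.2.2 ≤ y g.2.2.2)
    (h3 : x g.1 < x f.1) : False := by
  obtain ⟨a1, a2, a3, a4⟩ := h.zf
  obtain ⟨c1, c2, c3, c4⟩ := h.zg
  have hsub : Pts x y (x f.1) z.1 (y f.2.2.1) (y f.2.2.2) ⊆ Pts x y (x g.1) z.1 (y g.2.2.1) (y g.2.2.2) :=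
    FW_sub x y h3.le le_rfl h1 h2
  have hc : (Pts x y (x f.1) z.1 (y f.2.2.1) (y f.2.2.2)).card =
      (Pts x y (x g.1) z.1 (y g.2.2.1) (y g.2.2.2)).card := by
    rw [FW_splity x y (b := y f.2.2.1) (t := y f.2.2.2) (m := z.2) (by omega) a4,
      FW_splity x y (b := y g.2.2.1) (t := y g.2.2.2) (m := z.2) (by omega) c4, h.sw, h.nw]
  obtain ⟨d, -, -, -⟩ := h.fg
  unfold In at d
  simp only at d
  have := FW_mem hsub hc (s := g.1) ((mem_Pts x y).2 ⟨le_rfl, c1, d.2.2.1, d.2.2.2⟩)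
  rw [mem_Pts] at this
  omega

theorem FWP.rig (h : FWP x y K z f g) (h1 : y g.2.2.1 ≤ y f.2.2.1) (h2 : y f.2.2.2 ≤ y g.2.2.2)
    (h3 : x f.2.1 < x g.2.1) : False := by
  obtain ⟨a1, a2, a3, a4⟩ := h.zf
  obtain ⟨c1, c2, c3, c4⟩ := h.zg
  have hsub : Pts x y (z.1 + 1) (x f.2.1) (y f.2.2.1) (y f.2.2.2) ⊆ Pts x y (z.1 + 1) (x g.2.1) (y g.2.2.1) (y g.2.2.2) :=
    FW_sub x y le_rfl h3.le h1 h2
  have hc : (Pts x y (z.1 + 1) (x f.2.1) (y f.2.2.1) (y f.2.2.2)).card =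
      (Pts x y (z.1 + 1) (x g.2.1) (y g.2.2.1) (y g.2.2.2)).card := by
    rw [FW_splity x y (b := y f.2.2.1) (t := y f.2.2.2) (m := z.2) (by omega) a4,
      FW_splity x y (b := y g.2.2.1) (t := y g.2.2.2) (m := z.2) (by omega) c4, h.se, h.ne]
  obtain ⟨-, d, -, -⟩ := h.fg
  unfold In at d
  simp only at d
  have := FW_mem hsub hc (s := g.2.1) ((mem_Pts x y).2 ⟨by omega, le_rfl, d.2.2.1, d.2.2.2⟩)
  rw [mem_Pts] at this
  omega

theorem FWP.mse (h : FWP x y K z f g) (h1 : x f.1 < x g.1) (h2 : x f.2.1 < x g.2.1)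
    (h3 : y g.2.2.1 < y f.2.2.1) (h4 : y g.2.2.2 < y f.2.2.2) : MSE x y K f g := by
  obtain ⟨a1, a2, a3, a4⟩ := h.zf
  obtain ⟨c1, c2, c3, c4⟩ := h.zg
  have snw : Pts x y (x g.1) z.1 (z.2 + 1) (y g.2.2.2) ⊆ Pts x y (x f.1) z.1 (z.2 + 1) (y f.2.2.2) :=
    FW_sub x y h1.le le_rfl le_rfl h4.le
  have sse : Pts x y (z.1 + 1) (x f.2.1) (y f.2.2.1) z.2 ⊆ Pts x y (z.1 + 1) (x g.2.1) (y g.2.2.1) z.2 :=
    FW_sub x y le_rfl h2.le h3.le le_rfl
  refine ⟨h1, by omega, h2, h3, by omega, h4, ?_, ?_, ?_⟩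
  · rintro s ⟨k1, k2, k3, k4⟩
    have := FW_mem snw h.nw.symm (s := s) ((mem_Pts x y).2 ⟨k1, by omega, by omega, k4⟩)
    rw [mem_Pts] at this
    omega
  · rintro s ⟨k1, k2, k3, k4⟩
    have := FW_mem sse h.se (s := s) ((mem_Pts x y).2 ⟨by omega, k2, k3, by omega⟩)
    rw [mem_Pts] at this
    omega
  · have e1 : (Pts x y (z.1 + 1) (x f.2.1) (y g.2.2.1) z.2).card =
        (Pts x y (z.1 + 1) (x f.2.1) (y f.2.2.1) z.2).card := by
      apply le_antisymm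
      · rw [h.se]
        exact Finset.card_le_card (FW_sub x y le_rfl h2.le le_rfl le_rfl)
      · exact Finset.card_le_card (FW_sub x y le_rfl le_rfl h3.le le_rfl)
    have e2 : (Pts x y (x g.1) z.1 (z.2 + 1) (y f.2.2.2)).card =
        (Pts x y (x f.1) z.1 (z.2 + 1) (y f.2.2.2)).card := by
      apply le_antisymm
      · exact Finset.card_le_card (FW_sub x y h1.le le_rfl le_rfl le_rfl)
      · rw [h.nw]
        exact Finset.card_le_card (FW_sub x y le_rfl le_rfl le_rfl h4.le)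
    have e3 := h.kf
    unfold cont at e3
    rw [FW_four x y a1 a2 a3 a4] at e3
    rw [FW_four x y c1 a2 c3 a4, e1, e2, ← h.sw]
    exact e3

theorem FWP.mne (h : FWP x y K z f g) (h1 : x f.1 < x g.1) (h2 : x f.2.1 < x g.2.1)
    (h3 : y f.2.2.1 < y g.2.2.1) (h4 : y f.2.2.2 < y g.2.2.2) : MNE x y K f g := by
  obtain ⟨a1, a2, a3, a4⟩ := h.zf
  obtain ⟨c1, c2, c3, c4⟩ := h.zg
  have ssw : Pts x y (x g.1) z.1 (y g.2.2.1) z.2 ⊆ Pts x y (x f.1) z.1 (y f.2.2.1) z.2 :=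
    FW_sub x y h1.le le_rfl h3.le le_rfl
  have sne : Pts x y (z.1 + 1) (x f.2.1) (z.2 + 1) (y f.2.2.2) ⊆ Pts x y (z.1 + 1) (x g.2.1) (z.2 + 1) (y g.2.2.2) :=
    FW_sub x y le_rfl h2.le le_rfl h4.le
  refine ⟨h1, by omega, h2, h3, by omega, h4, ?_, ?_, ?_⟩
  · rintro s ⟨k1, k2, k3, k4⟩
    have := FW_mem ssw h.sw.symm (s := s) ((mem_Pts x y).2 ⟨k1, by omega, k3, by omega⟩)
    rw [mem_Pts] at this
    omega
  · rintro s ⟨k1, k2, k3, k4⟩
    have := FW_mem sne h.ne (s := s) ((mem_Pts x y).2 ⟨by omega, k2, by omega, k4⟩)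
    rw [mem_Pts] at this
    omega
  · have e1 : (Pts x y (x g.1) z.1 (y f.2.2.1) z.2).card = (Pts x y (x f.1) z.1 (y f.2.2.1) z.2).card := by
      apply le_antisymm
      · exact Finset.card_le_card (FW_sub x y h1.le le_rfl le_rfl le_rfl)
      · rw [h.sw]
        exact Finset.card_le_card (FW_sub x y le_rfl le_rfl h3.le le_rfl)
    have e2 : (Pts x y (z.1 + 1) (x f.2.1) (z.2 + 1) (y g.2.2.2)).card =
        (Pts x y (z.1 + 1) (x f.2.1) (z.2 + 1) (y f.2.2.2)).card := by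
      apply le_antisymm
      · rw [h.ne]
        exact Finset.card_le_card (FW_sub x y le_rfl h2.le le_rfl le_rfl)
      · exact Finset.card_le_card (FW_sub x y le_rfl le_rfl le_rfl h4.le)
    have e3 := h.kf
    unfold cont at e3
    rw [FW_four x y a1 a2 a3 a4] at e3
    rw [FW_four x y c1 a2 a3 c4, e1, e2, ← h.nw]
    exact e3

/-- the step for an ordered pair: `x f.1 ≤ x g.1` fails or `f`, `g` are equal. -/
theorem FWP.eq (h : FWP x y K z f g) (hx : Function.Injective x) (hy : Function.Injective y)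
    (c1 : ¬ Cr x y f g) (c2 : ¬ Cr x y g f)
    (m1 : ¬ MSE x y K f g ∧ ¬ MNE x y K f g) (m2 : ¬ MSE x y K g f ∧ ¬ MNE x y K g f) : f = g := by
  by_contra hne
  have hs := h.symm
  have hcc : (cont x y f).card = (cont x y g).card := by rw [h.kf, h.kg]
  rcases le_or_gt (x g.1) (x f.1) with X1 | X1
  · rcases le_or_gt (x f.2.1) (x g.2.1) with X2 | X2
    · -- I in I'
      rcases lt_or_ge (y g.2.2.1) (y f.2.2.1) with Y1 | Y1
      · exact h.low X1 X2 Y1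
      · rcases lt_or_ge (y f.2.2.2) (y g.2.2.2) with Y2 | Y2
        · exact h.upp X1 X2 Y2
        · exact c1 ⟨hne, X1, X2, Y1, Y2⟩
    · -- l' ≤ l, r' < r
      rcases eq_or_lt_of_le X1 with X3 | X3
      · -- l' = l : I' in I
        rcases lt_or_ge (y f.2.2.1) (y g.2.2.1) with Y1 | Y1
        · exact hs.low X3.ge X2.le Y1
        · rcases lt_or_ge (y g.2.2.2) (y f.2.2.2) with Y2 | Y2
          · exact hs.upp X3.ge X2.le Y2
          · exact c2 ⟨Ne.symm hne, X3.ge, X2.le, Y1, Y2⟩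
      · -- D : l' < l, r' < r
        rcases lt_trichotomy (y f.2.2.1) (y g.2.2.1) with Y1 | Y1 | Y1
        · rcases le_or_gt (y g.2.2.2) (y f.2.2.2) with Y2 | Y2
          · exact hs.rig Y1.le Y2 X2
          · exact m2.1 (hs.mse X3 X2 Y1 Y2)
        · rcases le_total (y g.2.2.2) (y f.2.2.2) with Y2 | Y2
          · exact hs.rig Y1.le Y2 X2
          · exact h.lef Y1.ge Y2 X3
        · rcases le_or_gt (y f.2.2.2) (y g.2.2.2) with Y2 | Y2
          · exact h.lef Y1.le Y2 X3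
          · exact m2.2 (hs.mne X3 X2 Y1 Y2)
  · -- l < l'
    rcases le_or_gt (x g.2.1) (x f.2.1) with X2 | X2
    · -- I' in I
      rcases lt_or_ge (y f.2.2.1) (y g.2.2.1) with Y1 | Y1
      · exact hs.low X1.le X2 Y1
      · rcases lt_or_ge (y g.2.2.2) (y f.2.2.2) with Y2 | Y2
        · exact hs.upp X1.le X2 Y2
        · exact c2 ⟨Ne.symm hne, X1.le, X2, Y1, Y2⟩
    · -- C : l < l', r < r'
      rcases lt_trichotomy (y g.2.2.1) (y f.2.2.1) with Y1 | Y1 | Y1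
      · rcases le_or_gt (y f.2.2.2) (y g.2.2.2) with Y2 | Y2
        · exact h.rig Y1.le Y2 X2
        · exact m1.1 (h.mse X1 X2 Y1 Y2)
      · rcases le_total (y f.2.2.2) (y g.2.2.2) with Y2 | Y2
        · exact h.rig Y1.le Y2 X2
        · exact hs.lef Y1.ge Y2 X1
      · rcases le_or_gt (y g.2.2.2) (y f.2.2.2) with Y2 | Y2
        · exact hs.lef Y1.le Y2 X1
        · exact m1.2 (h.mne X1 X2 Y1 Y2)

/-- row FW (step 1c of the proof page: the map f ↦ (numbers of points of the box in the SW, SE, NW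
quadrant at z) is injective on the members of `F` which contain `z`). -/
theorem few {ι : Type*} [Fintype ι] (x y : ι → ℤ) (hx : Function.Injective x)
    (hy : Function.Injective y) (K : ℕ) (V : Finset (ℤ × ℤ)) (F : Finset (Fm ι))
    (hF : F ⊆ Fam x y K V) (hC : ∀ f ∈ F, ∀ g ∈ F, ¬ Cr x y f g)
    (hM : ∀ f ∈ F, ∀ g ∈ F, ¬ MSE x y K f g ∧ ¬ MNE x y K f g) (z : ℤ × ℤ) :
    (F.filter (fun f => In x y f z)).card ≤ (K + 1) ^ 3 := by
  classical
  have hcard : (Finset.range (K + 1) ×ˢ (Finset.range (K + 1) ×ˢ Finset.range (K + 1))).card = (K + 1) ^ 3 := by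
    rw [Finset.card_product, Finset.card_product, Finset.card_range]
    ring
  rw [← hcard]
  apply Finset.card_le_card_of_injOn (FWq x y z)
  · intro f hf
    have hf' := Finset.mem_filter.1 (Finset.mem_coe.1 hf)
    obtain ⟨hfr, hfc, -⟩ := (mem_Fam x y).1 (hF hf'.1)
    obtain ⟨a1, a2, a3, a4⟩ := hf'.2
    unfold cont at hfc
    rw [FW_four x y a1 a2 a3 a4] at hfc
    rw [Finset.mem_coe, Finset.mem_product, Finset.mem_product, Finset.mem_range, Finset.mem_range,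
      Finset.mem_range]
    unfold FWq
    simp only
    omega
  · intro f hf g hg hfg
    have hf' := Finset.mem_filter.1 (Finset.mem_coe.1 hf)
    have hg' := Finset.mem_filter.1 (Finset.mem_coe.1 hg)
    obtain ⟨hfr, hfc, -⟩ := (mem_Fam x y).1 (hF hf'.1)
    obtain ⟨hgr, hgc, -⟩ := (mem_Fam x y).1 (hF hg'.1)
    unfold FWq at hfg
    rw [Prod.mk.injEq, Prod.mk.injEq] at hfg
    obtain ⟨e1, e2, e3⟩ := hfg
    have zf := hf'.2
    have zg := hg'.2
    have e4 : (Pts x y (z.1 + 1) (x f.2.1) (z.2 + 1) (y f.2.2.2)).card =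
        (Pts x y (z.1 + 1) (x g.2.1) (z.2 + 1) (y g.2.2.2)).card := by
      have hfc' := hfc
      have hgc' := hgc
      unfold cont at hfc' hgc'
      rw [FW_four x y zf.1 zf.2.1 zf.2.2.1 zf.2.2.2] at hfc'
      rw [FW_four x y zg.1 zg.2.1 zg.2.2.1 zg.2.2.2] at hgc'
      omega
    have P : FWP x y K z f g := ⟨hfr, hgr, hfc, hgc, zf, zg, e1, e2, e3, e4⟩
    exact P.eq hx hy (hC f hf'.1 g hg'.1) (hC g hg'.1 f hf'.1) (hM f hf'.1 g hg'.1) (hM g hg'.1 f hf'.1)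

end Pool.Agent.helper78.HR
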